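import Mathlib

/-!
1-limited automata.
-/

namespace Pool.Agent.H38.LA

/-- Scanned symbols: the two end-markers and the other work symbols. -/
inductive Sym (Γ : Type)
  | left
  | right
  | cell (γ : Γ)

/-- A 1-limited automaton with states `Q`, input alphabet `A` and work alphabet `Γ` plus the two
end-markers.  A move gives the new state, the written symbol and the direction
(`true` is right). -/
structure Aut (Q A Γ : Type) where
  /-- input symbols are work symbols -/
  inp : A ↪ Γ
  /-- transition function -/
  δ : Q → Sym Γ → Set (Q × Γ × Bool)
  /-- initial state -/
  init : Q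
  /-- final states -/
  final : Set Q

/-- The symbol in position `i` of the tape with inner contents `t` between the end-markers. -/
def scan {Γ : Type} (t : List Γ) (i : ℕ) : Option (Sym Γ) :=
  if i = 0 then some .left else if i = t.length + 1 then some .right else t[i - 1]?.map .cell

/-- Configurations: state, head position, inner tape contents, and the largest position visited
before. -/
structure Conf (Q Γ : Type) where
  /-- state -/
  q : Q
  /-- head position -/
  pos : ℕ
  /-- contents of the cells `1, …, n` -/
  tape : List Γ
  /-- largest position visited before -/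
  seen : ℕ

/-- One move.  The written symbol takes effect only on the first visit to an inner cell; the head
cannot leave the tape to the left. -/
def Aut.Step {Q A Γ : Type} (M : Aut Q A Γ) (x y : Conf Q Γ) : Prop :=
  ∃ σ γ d, scan x.tape x.pos = some σ ∧ (y.q, γ, d) ∈ M.δ x.q σ ∧ (x.pos = 0 → d = true) ∧
    y.pos = (if d then x.pos + 1 else x.pos - 1) ∧
    y.tape = (if x.seen < x.pos then x.tape.set (x.pos - 1) γ else x.tape) ∧
    y.seen = max x.seen x.pos

/-- Acceptance: some computation moves past the right end-marker into a final state. -/
def Aut.Accepts {Q A Γ : Type} (M : Aut Q A Γ) (w : List A) : Prop :=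
  ∃ y, Relation.ReflTransGen M.Step ⟨M.init, 1, w.map M.inp, 0⟩ y ∧
    y.pos = w.length + 2 ∧ y.q ∈ M.final

/-- Deterministic automata. -/
def Aut.Det {Q A Γ : Type} (M : Aut Q A Γ) : Prop := ∀ q σ, (M.δ q σ).Subsingleton

end Pool.Agent.H38.LA
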