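import Pool.Agent.H38.LA.Defs
import Pool.Agent.H38.Lim.Gen

namespace Pool.Agent.H38.LA

open Relation Pool.Agent.H38.Lim

variable {Q A Γ : Type}

theorem scan_append (t s : List Γ) {i : ℕ} (h : i ≤ t.length) : scan (t ++ s) i = scan t i := by
  unfold scan
  by_cases h0 : i = 0
  · simp [h0]
  · rw [if_neg h0, if_neg h0, if_neg (by simp; omega), if_neg (by omega),
      List.getElem?_append_left (by omega)]

theorem scan_right {t t' : List Γ} (s : List Γ) (hl : t.length = t'.length) {i : ℕ}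
    (h : t.length < i) : scan (t ++ s) i = scan (t' ++ s) i := by
  unfold scan
  rw [if_neg (by omega), if_neg (show ¬ i = 0 by omega),
    List.getElem?_append_right (by omega), List.getElem?_append_right (by omega)]
  simp [hl]

def ext (s : List Γ) (x : Conf Q Γ) : Conf Q Γ := ⟨x.q, x.pos, x.tape ++ s, x.seen⟩

def Aut.Pre (D : Aut Q A Γ) (n : ℕ) (x y : Conf Q Γ) : Prop :=
  x.pos ≤ n ∧ x.tape.length = n ∧ D.Step x y

def Aut.First (D : Aut Q A Γ) (u : List A) (p : Q) (t : List Γ) : Prop :=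
  ReflTransGen (D.Pre u.length) ⟨D.init, 1, u.map D.inp, 0⟩ ⟨p, u.length + 1, t, u.length⟩ ∧
    t.length = u.length

theorem set_ext (t s : List Γ) {i j : ℕ} (h : i ≤ t.length) (γ : Γ) :
    (if j < i then (t ++ s).set (i - 1) γ else t ++ s) =
      (if j < i then t.set (i - 1) γ else t) ++ s := by
  split_ifs with h'
  · rw [List.set_append_left _ _ (by omega)]
  · rfl

theorem pre_ext (D : Aut Q A Γ) (s : List Γ) {n : ℕ} {x y : Conf Q Γ} (h : D.Pre n x y) :
    D.Step (ext s x) (ext s y) := by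
  obtain ⟨h1, h2, σ, γ, d, h3, h4, h5, h6, h7, h8⟩ := h
  refine ⟨σ, γ, d, (scan_append _ _ (by simp only [ext]; omega)).trans h3, h4, h5, h6, ?_, h8⟩
  simp only [ext]
  rw [set_ext _ _ (by omega), h7]

theorem first_reach (D : Aut Q A Γ) {u : List A} (v : List A) {p : Q} {t : List Γ}
    (h : D.First u p t) : ReflTransGen D.Step ⟨D.init, 1, (u ++ v).map D.inp, 0⟩
      ⟨p, u.length + 1, t ++ v.map D.inp, u.length⟩ := by
  have := rtg_map (ext (v.map D.inp)) (fun _ _ h => pre_ext D _ h) h.1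
  simpa [ext] using this

theorem exists_first (D : Aut Q A Γ) (u v : List A) {c : Conf Q Γ}
    (h : ReflTransGen D.Step ⟨D.init, 1, (u ++ v).map D.inp, 0⟩ c) (hc : u.length < c.pos) :
    ∃ p t, D.First u p t ∧
      ReflTransGen D.Step ⟨p, u.length + 1, t ++ v.map D.inp, u.length⟩ c := by
  have key : ∀ c, ReflTransGen D.Step ⟨D.init, 1, (u ++ v).map D.inp, 0⟩ c →
      (∃ x, ReflTransGen (D.Pre u.length) ⟨D.init, 1, u.map D.inp, 0⟩ x ∧
        c = ext (v.map D.inp) x ∧ x.tape.length = u.length ∧ x.seen ≤ u.length ∧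
        x.pos ≤ x.seen + 1) ∨
      ∃ p t, D.First u p t ∧
        ReflTransGen D.Step ⟨p, u.length + 1, t ++ v.map D.inp, u.length⟩ c := by
    intro c hc
    induction hc with
    | refl => exact Or.inl ⟨_, .refl, by simp [ext], by simp, by simp, by simp⟩
    | @tail x y _ hs ih =>
      rcases ih with ⟨x, h1, rfl, h0, h2, h3⟩ | ⟨p, t, h1, h2⟩
      · by_cases hx : x.pos ≤ u.length
        · obtain ⟨σ, γ, d, h4, h5, h6, h7, h8, h9⟩ := hs
          simp only [ext] at h4 h5 h6 h7 h8 h9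
          rw [scan_append _ _ (by omega)] at h4
          rw [set_ext _ _ (by omega)] at h8
          refine Or.inl ⟨⟨y.q, y.pos, if x.seen < x.pos then x.tape.set (x.pos - 1) γ else x.tape,
            y.seen⟩, h1.tail ⟨hx, h0, σ, γ, d, h4, h5, h6, h7, rfl, h9⟩,
            by simp only [ext, ← h8], ?_, ?_, ?_⟩
          · dsimp only; split_ifs <;> simp [h0]
          · dsimp only; omega
          · dsimp only; split_ifs at h7 <;> omega
        · obtain ⟨q, i, t, j⟩ := x
          simp only at hx h0 h2 h3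
          obtain rfl : i = u.length + 1 := by omega
          obtain rfl : j = u.length := by omega
          exact Or.inr ⟨q, t, ⟨h1, h0⟩, .single hs⟩
      · exact Or.inr ⟨p, t, h1, h2.tail hs⟩
  rcases key c h with ⟨x, h1, rfl, h0, h2, h3⟩ | h
  · obtain ⟨q, i, t, j⟩ := x
    simp only [ext] at hc h0 h2 h3
    obtain rfl : i = u.length + 1 := by omega
    obtain rfl : j = u.length := by omega
    exact ⟨q, t, ⟨h1, h0⟩, .refl⟩
  · exact h

theorem first_unique {D : Aut Q A Γ} (hD : D.Det) {u : List A} {p p' : Q} {t t' : List Γ}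
    (h : D.First u p t) (h' : D.First u p' t') : p = p' ∧ t = t' := by
  have ru : Relator.RightUnique (D.Pre u.length) := by
    rintro x y y' ⟨-, -, σ, γ, d, h3, h4, -, h6, h7, h8⟩ ⟨-, -, σ', γ', d', h3', h4', -, h6', h7', h8'⟩
    obtain rfl : σ = σ' := by simpa [h3] using h3'
    have := hD _ _ h4 h4'
    simp only [Prod.mk.injEq] at this
    obtain ⟨e1, rfl, rfl⟩ := this
    cases y; cases y'
    simp_all
  have fin : ∀ {a b : Q} {t t' : List Γ}, ReflTransGen (D.Pre u.length)
      ⟨a, u.length + 1, t, u.length⟩ ⟨b, u.length + 1, t', u.length⟩ → a = b ∧ t = t' := by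
    intro a b t t' h
    rcases h.cases_head with h | ⟨c, h, -⟩
    · simpa using h
    · have := h.1; simp at this
  rcases ReflTransGen.total_of_right_unique ru h.1 h'.1 with h | h
  · exact fin h
  · exact ⟨(fin h).1.symm, (fin h).2.symm⟩

def Aut.In (D : Aut Q A Γ) (t : List Γ) (x x' : Q × ℕ) : Prop :=
  x.2 ≤ t.length ∧ ∃ σ γ d, scan t x.2 = some σ ∧ (x'.1, γ, d) ∈ D.δ x.1 σ ∧
    (x.2 = 0 → d = true) ∧ x'.2 = (if d then x.2 + 1 else x.2 - 1)

def Aut.Tab (D : Aut Q A Γ) (t : List Γ) : Set (Q × Q) :=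
  {p | ReflTransGen (D.In t) (p.1, t.length) (p.2, t.length + 1)}

theorem in_lift (D : Aut Q A Γ) (t s : List Γ) {j : ℕ} (hj : t.length ≤ j) {x x' : Q × ℕ}
    (h : ReflTransGen (D.In t) x x') :
    ReflTransGen D.Step ⟨x.1, x.2, t ++ s, j⟩ ⟨x'.1, x'.2, t ++ s, j⟩ := by
  refine rtg_map (fun x : Q × ℕ => (⟨x.1, x.2, t ++ s, j⟩ : Conf Q Γ)) ?_ h
  rintro x x' ⟨h1, σ, γ, d, h2, h3, h4, h5⟩
  exact ⟨σ, γ, d, (scan_append _ _ h1).trans h2, h3, h4, h5, (if_neg (by dsimp only; omega)).symm,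
    by dsimp only; omega⟩

theorem transfer (D : Aut Q A Γ) {u u' : List A} (v : List A) (hl : u.length = u'.length)
    (hF : ∀ p t, D.First u p t → ∃ t', D.First u' p t' ∧ D.Tab t ⊆ D.Tab t')
    (h : D.Accepts (u ++ v)) : D.Accepts (u' ++ v) := by
  obtain ⟨c, h, hi, hq⟩ := h
  obtain ⟨p, t, hp, h⟩ := exists_first D u v h (by simp at hi; omega)
  obtain ⟨t', hp', hT⟩ := hF p t hp
  have h0 := first_reach D v hp'
  have hn := hp.2
  have hn' := hp'.2
  rw [← hl] at h0 hn'
  have hi' : c.pos = (u' ++ v).length + 2 := by simpa [hl] using hi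
  simp only [List.length_append] at hi
  generalize u.length = n at *
  set R' := ReflTransGen D.Step ⟨D.init, 1, (u' ++ v).map D.inp, 0⟩ with hR'
  have key : ∀ c, ReflTransGen D.Step ⟨p, n + 1, t ++ v.map D.inp, n⟩ c →
      ∃ s, c.tape = t ++ s ∧ n ≤ c.seen ∧
        ((n < c.pos ∧ R' ⟨c.q, c.pos, t' ++ s, c.seen⟩) ∨
        (c.pos ≤ n ∧ ∃ p0, R' ⟨p0, n, t' ++ s, c.seen⟩ ∧
          ReflTransGen (D.In t) (p0, n) (c.q, c.pos))) := by
    intro c hc
    induction hc with
    | refl => exact ⟨_, rfl, le_rfl, Or.inl ⟨by simp, h0⟩⟩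
    | @tail x y _ hs ih =>
      obtain ⟨s, e, h1, ih⟩ := ih
      obtain ⟨σ, γ, d, h4, h5, h6, h7, h8, h9⟩ := hs
      rw [e] at h4 h8
      rcases ih with ⟨h2, h3⟩ | ⟨h2, p0, h3, h10⟩
      · have e1 : ∀ t : List Γ, t.length = n →
            (if x.seen < x.pos then (t ++ s).set (x.pos - 1) γ else t ++ s) =
            t ++ (if x.seen < x.pos then s.set (x.pos - 1 - n) γ else s) := by
          intro t ht
          split_ifs
          · rw [List.set_append_right _ _ (by omega), ht]
          · rfl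
        rw [e1 t hn] at h8
        have h11 : R' ⟨y.q, y.pos, t' ++ _, y.seen⟩ := h3.tail ⟨σ, γ, d,
          (scan_right s (hn'.trans hn.symm) (by dsimp only; omega)).trans h4, h5, h6, h7,
          (e1 t' hn').symm, h9⟩
        refine ⟨_, h8, by omega, ?_⟩
        by_cases h12 : n < y.pos
        · exact Or.inl ⟨h12, h11⟩
        · have : y.pos = n := by split_ifs at h7 <;> omega
          exact Or.inr ⟨this.le, y.q, this ▸ h11, this ▸ .refl⟩
      · rw [if_neg (by omega)] at h8
        rw [scan_append _ _ (by omega)] at h4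
        have h11 := h10.tail (c := (y.q, y.pos)) ⟨by dsimp only; omega, σ, γ, d, h4, h5, h6, h7⟩
        have h12 : y.seen = x.seen := by omega
        refine ⟨s, h8, by omega, ?_⟩
        by_cases h13 : y.pos ≤ n
        · exact Or.inr ⟨h13, p0, h12 ▸ h3, h11⟩
        · have h14 : y.pos = n + 1 := by split_ifs at h7 <;> omega
          refine Or.inl ⟨by omega, ?_⟩
          have : (p0, y.q) ∈ D.Tab t := by simpa [Aut.Tab, hn, h14] using h11
          have := in_lift D t' s (j := x.seen) (by omega) (hT this)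
          simp only [hn'] at this
          rw [h12, h14]
          exact h3.trans this
  obtain ⟨s, -, -, ⟨-, h2⟩ | ⟨h2, -⟩⟩ := key _ h
  · exact ⟨_, h2, hi', hq⟩
  · omega

theorem count {I J : Type} [Fintype I] [Fintype Q] {D : Aut Q A Γ} (hD : D.Det) (u : I → List A)
    (v : J → List A) (hl : ∀ i i', (u i).length = (u i').length)
    (hsep : ∀ i i', (∀ j, D.Accepts (u i ++ v j) ↔ D.Accepts (u i' ++ v j)) → i = i') :
    Fintype.card I ≤ Fintype.card Q * 2 ^ (Fintype.card Q ^ 2) + 1 := by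
  classical
  let f : I → Option (Q × Set (Q × Q)) := fun i =>
    if h : ∃ p : Q × List Γ, D.First (u i) p.1 p.2 then some (h.choose.1, D.Tab h.choose.2) else none
  have hf : ∀ i i', f i = f i' → ∀ j, D.Accepts (u i ++ v j) → D.Accepts (u i' ++ v j) := by
    intro i i' e j
    refine transfer D _ (hl i i') fun p t hp => ?_
    have h1 : ∃ p : Q × List Γ, D.First (u i) p.1 p.2 := ⟨(p, t), hp⟩
    simp only [f, dif_pos h1] at e
    split_ifs at e with h2
    simp only [Option.some.injEq, Prod.mk.injEq] at e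
    obtain ⟨rfl, rfl⟩ := first_unique hD hp h1.choose_spec
    exact ⟨_, e.1 ▸ h2.choose_spec, e.2.le⟩
  have := Fintype.card_le_of_injective f fun i i' e =>
    hsep i i' fun j => ⟨hf i i' e j, hf i' i e.symm j⟩
  simpa [sq] using this

end Pool.Agent.H38.LA
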