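import Pool.Agent.H38.LA.Wit

namespace Pool.Agent.H38.LA

open List

variable {s : ℕ} [NeZero s]

theorem cast_sub (i : ZMod s) : ((s - i.val : ℕ) : ZMod s) = -i := by
  rw [Nat.cast_sub (ZMod.val_lt i).le]; simp

theorem cnt_rep (l l' : Let) (n : ℕ) :
    (cnt l (replicate n l') : ZMod s) = if l' = l then (n : ZMod s) else 0 := by
  simp only [cnt, count_replicate, beq_iff_eq]; split_ifs <;> simp

open Classical in
noncomputable def piece (R : ZMod s → ZMod s → Prop) (p : ZMod s × ZMod s) : List Let :=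
  (replicate (s - p.1.val) .a ++ replicate (s - p.2.val) .b) ++
    (if R p.1 p.2 then .e else .n) :: (replicate p.1.val .a ++ replicate p.2.val .b)

noncomputable def blk (R : ZMod s → ZMod s → Prop) (L : List (ZMod s × ZMod s)) : List Let :=
  L.flatMap (piece R)

theorem mem_blk {R : ZMod s → ZMod s → Prop} {L : List (ZMod s × ZMod s)} {l : Let}
    (h : l ∈ blk R L) : l = .a ∨ l = .b ∨ l = .e ∨ l = .n := by
  simp only [blk, piece, mem_flatMap, mem_append, mem_replicate, mem_cons] at h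
  obtain ⟨p, -, h⟩ := h
  split_ifs at h <;> tauto

theorem cnt_piece (R : ZMod s → ZMod s → Prop) (p : ZMod s × ZMod s) :
    (cnt .a (piece R p) : ZMod s) = 0 ∧ (cnt .b (piece R p) : ZMod s) = 0 := by
  unfold piece
  split_ifs <;> simp [cnt_rep, cast_sub, ind]

theorem cnt_blk (R : ZMod s → ZMod s → Prop) (L : List (ZMod s × ZMod s)) :
    (cnt .a (blk R L) : ZMod s) = 0 ∧ (cnt .b (blk R L) : ZMod s) = 0 := by
  induction L with
  | nil => simp [blk]
  | cons p L ih =>
    have := cnt_piece R p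
    simp only [blk, flatMap_cons, cnt_append] at ih ⊢
    simp [this, ih]

theorem length_blk (R R' : ZMod s → ZMod s → Prop) (L : List (ZMod s × ZMod s)) :
    (blk R L).length = (blk R' L).length := by
  simp [blk, length_flatMap, piece]

theorem mid_eq {α β x y : List Let} {m e : Let} (h : α ++ m :: β = x ++ e :: y) (h1 : e ∉ α)
    (h2 : e ∉ β) : x = α ∧ m = e ∧ y = β := by
  rcases append_eq_append_iff.1 h with ⟨c, rfl, h⟩ | ⟨c, rfl, h⟩
  · cases c with
    | nil => simp at h; simp [h]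
    | cons c cs => simp at h; simp [h] at h2
  · cases c with
    | nil => simp at h; simp [h]
    | cons c cs => simp at h; simp [h] at h1

theorem first_eq {α β x y : List Let} {e : Let} (h : α ++ e :: β = x ++ e :: y) (h1 : e ∉ α)
    (h2 : e ∉ x) : α = x := by
  rcases append_eq_append_iff.1 h with ⟨c, rfl, h⟩ | ⟨c, rfl, h⟩
  · cases c with
    | nil => simp
    | cons c cs => simp at h; simp [h] at h2
  · cases c with
    | nil => simp
    | cons c cs => simp at h; simp [h] at h1

theorem blk_rel {R : ZMod s → ZMod s → Prop} {L : List (ZMod s × ZMod s)} {x1 x2 : List Let}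
    (h : blk R L = x1 ++ .e :: x2) : R (-cnt .a x1) (cnt .b x2) := by
  induction L generalizing x1 with
  | nil => simp [blk] at h
  | cons p L ih =>
    have e : blk R (p :: L) = piece R p ++ blk R L := rfl
    rw [e] at h
    have main : ∀ x, x1 = piece R p ++ x → blk R L = x ++ .e :: x2 →
        R (-cnt .a x1) (cnt .b x2) := by
      rintro x rfl h
      simpa [(cnt_piece R p).1] using ih h
    rcases append_eq_append_iff.1 h with ⟨c, h1, h2⟩ | ⟨c, h1, h2⟩
    · exact main c h1 h2
    · cases c with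
      | nil => exact main [] (by simpa using h1.symm) (by simpa using h2.symm)
      | cons c cs =>
        obtain ⟨rfl, rfl⟩ := cons.inj h2
        obtain ⟨rfl, h3, rfl⟩ := mid_eq h1 (by simp) (by simp)
        have h4 : R p.1 p.2 := by by_contra hc; simp [hc] at h3
        simpa [cnt_rep, cast_sub, (cnt_blk R L).2] using h4

theorem rel_blk {R : ZMod s → ZMod s → Prop} {L : List (ZMod s × ZMod s)} {i j : ZMod s}
    (hL : (i, j) ∈ L) (h : R i j) :
    ∃ x1 x2, blk R L = x1 ++ .e :: x2 ∧ i + cnt .a x1 = 0 ∧ j = cnt .b x2 := by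
  obtain ⟨u, v, rfl⟩ := append_of_mem hL
  refine ⟨blk R u ++ (replicate (s - i.val) .a ++ replicate (s - j.val) .b),
    (replicate i.val .a ++ replicate j.val .b) ++ blk R v, by simp [blk, piece, h], ?_, ?_⟩
  · simp [cnt_rep, cast_sub, (cnt_blk R u).1]
  · simp [cnt_rep, (cnt_blk R v).2]

theorem run_plain {R : ZMod s → ZMod s → Prop} {x : List Let} (h1 : .c ∉ x) (h2 : .z ∉ x)
    {i k : ZMod s} : Run R i x k ↔ k = i + cnt .a x := by
  induction x generalizing i with
  | nil => simp [Run]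
  | cons l x ih =>
    simp only [mem_cons, not_or] at h1 h2
    simp [Run, Stp, Ne.symm h1.1, Ne.symm h2.1, ih h1.2 h2.2, add_assoc]

def test (p : ZMod s × ZMod s) : List Let :=
  replicate p.1.val .a ++ .c :: (replicate (s - p.2.val) .a ++ [.z])

theorem run_test {R : ZMod s → ZMod s → Prop} {p : ZMod s × ZMod s} {k : ZMod s} :
    Run R 0 (test p) k ↔ R p.1 p.2 ∧ k = 0 := by
  simp only [test, run_append, Run, run_plain (x := replicate _ .a) (by simp) (by simp), cnt_rep,
    cast_sub, Stp, ind]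
  simp only [if_true, ZMod.natCast_val, ZMod.cast_id', id_eq, zero_add, exists_eq_left,
    reduceCtorEq, if_false, forall_const, add_zero]
  constructor
  · rintro ⟨i, h1, k', ⟨h2, rfl⟩, rfl⟩
    rw [add_neg_eq_zero] at h2
    subst h2; simpa using h1
  · rintro ⟨h, rfl⟩
    exact ⟨p.2, h, by simp⟩

theorem run_tests {R : ZMod s → ZMod s → Prop} {T : List (ZMod s × ZMod s)} {k : ZMod s} :
    Run R 0 (T.flatMap test) k ↔ (∀ p ∈ T, R p.1 p.2) ∧ k = 0 := by
  induction T with
  | nil => simp [Run]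
  | cons p T ih => simp [run_append, run_test, ih, and_assoc]

theorem h_test (T : List (ZMod s × ZMod s)) : .h ∉ T.flatMap test := by
  simp [test]

noncomputable def pre (Rs : List (ZMod s → ZMod s → Prop)) (L : List (ZMod s × ZMod s)) :
    List Let := Rs.flatMap fun R => .h :: blk R L

theorem mem_pre {Rs : List (ZMod s → ZMod s → Prop)} {L : List (ZMod s × ZMod s)} :
    .c ∉ pre Rs L ∧ .z ∉ pre Rs L := by
  simp only [pre, mem_flatMap, mem_cons, not_exists, not_and, not_or]
  exact ⟨fun R _ => ⟨by simp, fun h => by simpa using mem_blk h⟩,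
    fun R _ => ⟨by simp, fun h => by simpa using mem_blk h⟩⟩

theorem cnt_pre (Rs : List (ZMod s → ZMod s → Prop)) (L : List (ZMod s × ZMod s)) :
    (cnt .a (pre Rs L) : ZMod s) = 0 := by
  induction Rs with
  | nil => simp [pre]
  | cons R Rs ih =>
    simp only [pre, flatMap_cons, cnt_append] at ih ⊢
    simp [ih, (cnt_blk R L).1, ind]

theorem pre_head (Rs : List (ZMod s → ZMod s → Prop)) (L : List (ZMod s × ZMod s))
    (t : List Let) : ∃ v, pre Rs L ++ .h :: t = .h :: v := by
  cases Rs <;> simp [pre]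

theorem h_blk (R : ZMod s → ZMod s → Prop) (L : List (ZMod s × ZMod s)) : .h ∉ blk R L :=
  fun h => by simpa using mem_blk h

theorem split_pre {L : List (ZMod s × ZMod s)} {t : List Let} (ht : .h ∉ t)
    (Rs : List (ZMod s → ZMod s → Prop)) : ∀ {u y : List Let},
    pre Rs L ++ .h :: t = u ++ .h :: y → y = t ∨ ∃ R ∈ Rs, ∃ Rs',
      y = blk R L ++ (pre Rs' L ++ .h :: t) := by
  induction Rs with
  | nil =>
    intro u y h
    exact Or.inl (mid_eq (α := []) h (by simp) ht).2.2
  | cons R Rs ih =>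
    intro u y h
    have e : pre (R :: Rs) L = .h :: (blk R L ++ pre Rs L) := rfl
    rw [e] at h
    cases u with
    | nil => exact Or.inr ⟨R, by simp, Rs, by simpa using h.symm⟩
    | cons l u =>
      have h : blk R L ++ (pre Rs L ++ .h :: t) = u ++ .h :: y := by
        rw [← append_assoc]; exact (cons.inj h).2
      rcases append_eq_append_iff.1 h with ⟨c, -, h2⟩ | ⟨c, h1, h2⟩
      · exact (ih h2).imp id fun ⟨R', h3, h4⟩ => ⟨R', by simp [h3], h4⟩
      · cases c with
        | nil => exact (ih (u := []) h2.symm).imp id fun ⟨R', h3, h4⟩ => ⟨R', by simp [h3], h4⟩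
        | cons c cs =>
          obtain ⟨rfl, -⟩ := cons.inj h2
          exact (h_blk R L (by simp [h1])).elim

theorem acc_iff {L : List (ZMod s × ZMod s)} (hL : ∀ p, p ∈ L)
    (Rs : List (ZMod s → ZMod s → Prop)) {T : List (ZMod s × ZMod s)} (hT : T ≠ []) :
    (wit s).Accepts (pre Rs L ++ .h :: T.flatMap test) ↔ ∃ R ∈ Rs, ∀ p ∈ T, R p.1 p.2 := by
  have run : ∀ (R R' : ZMod s → ZMod s → Prop) Rs' k,
      Run R' 0 (blk R L ++ (pre Rs' L ++ .h :: T.flatMap test)) k ↔
        (∀ p ∈ T, R' p.1 p.2) ∧ k = 0 := by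
    intro R R' Rs' k
    simp only [run_append, run_plain (x := blk R L) (fun h => by simpa using mem_blk h)
      (fun h => by simpa using mem_blk h), run_plain mem_pre.1 mem_pre.2, (cnt_blk R L).1, cnt_pre,
      Run, Stp, ind]
    simp [run_tests]
  constructor
  · intro h
    obtain ⟨u, y, e, i, h⟩ := sound h
    rcases split_pre (h_test T) Rs e with rfl | ⟨R, hR, Rs', rfl⟩
    · obtain ⟨p, hp⟩ := exists_mem_of_ne_nil T hT
      obtain ⟨x1, x2, v, e, -⟩ := (run_tests.1 h).1 p hp
      exact (h_test T (by simp [e])).elim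
    · refine ⟨R, hR, fun p hp => ?_⟩
      obtain ⟨x1, x2, v, e, h1, h2, h3, h4⟩ := ((run R _ Rs' i).1 h).1 p hp
      obtain ⟨v', hv⟩ := pre_head Rs' L (T.flatMap test)
      rw [hv, ← cons_append, ← append_assoc] at e
      have := first_eq e (h_blk R L) (by simp [h1, h2])
      have := blk_rel this
      rwa [← h4, ← eq_neg_of_add_eq_zero_left h3] at this
  · rintro ⟨R, hR, h⟩
    obtain ⟨Rs1, Rs2, rfl⟩ := append_of_mem hR
    obtain ⟨v', hv⟩ := pre_head Rs2 L (T.flatMap test)
    have e : pre (Rs1 ++ R :: Rs2) L ++ .h :: T.flatMap test =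
        pre Rs1 L ++ .h :: (blk R L ++ .h :: v') := by
      rw [← hv]; simp [pre]
    rw [e]
    refine complete (R := R) (k := 0) (fun i i' h => rel_blk (hL _) h) (h_blk R L)
      (fun h => by simpa using mem_blk h) ?_
    rw [← hv, run]
    exact ⟨h, rfl⟩

theorem lower {h : ℕ} (hh : 1 ≤ h) {Q Γ : Type} [Fintype Q] {D : Aut Q Let Γ} (hD : D.Det)
    (hacc : ∀ w, (wit (2 * h)).Accepts w ↔ D.Accepts w) : 2 ^ (h ^ 2) ≤ Fintype.card Q := by
  classical
  haveI : NeZero (2 * h) := ⟨by omega⟩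
  let P := ZMod (2 * h) → Fin h → Bool
  let R : P → ZMod (2 * h) → ZMod (2 * h) → Prop :=
    fun f i j => ∃ k : Fin h, j.val = 2 * k + (f i k).toNat
  let L : List (ZMod (2 * h) × ZMod (2 * h)) := Finset.univ.toList
  have hL : ∀ p, p ∈ L := fun p => by simp [L]
  have hR : ∀ (f : P) i (k : Fin h), R f i ((2 * k + (f i k).toNat : ℕ) : ZMod (2 * h)) :=
    fun f i k => ⟨k, ZMod.val_cast_of_lt (by have := Bool.toNat_le (f i k); omega)⟩
  have anti : ∀ f g : P, (∀ i j, R f i j → R g i j) → f = g := by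
    intro f g e
    funext i k
    obtain ⟨k', hk⟩ := e i _ (hR f i k)
    rw [ZMod.val_cast_of_lt (by have := Bool.toNat_le (f i k); omega)] at hk
    have := Bool.toNat_le (f i k)
    have := Bool.toNat_le (g i k')
    obtain rfl : k = k' := Fin.ext (by omega)
    revert hk
    cases f i k <;> cases g i k <;> simp
  let T : P → List (ZMod (2 * h) × ZMod (2 * h)) := fun f => L.filter fun p => R f p.1 p.2
  have hT : ∀ f, T f ≠ [] := fun f =>
    ne_nil_of_mem (a := (0, _)) (mem_filter.2 ⟨hL _, decide_eq_true (hR f 0 ⟨0, hh⟩)⟩)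
  let Ps : List P := Finset.univ.toList
  have key : ∀ (S : Set P) (f : P), D.Accepts (pre (Ps.map fun g i j => g ∈ S ∧ R g i j) L ++
      .h :: (T f).flatMap test) ↔ f ∈ S := by
    intro S f
    rw [← hacc, acc_iff hL _ (hT f)]
    simp only [mem_map, T, mem_filter, hL, true_and, decide_eq_true_eq]
    constructor
    · rintro ⟨_, ⟨g, -, rfl⟩, h⟩
      rw [anti f g fun i j h' => (h (i, j) h').2]
      exact (h (0, _) (hR f 0 ⟨0, hh⟩)).1
    · exact fun h => ⟨_, ⟨f, by simp [Ps], rfl⟩, fun p hp => ⟨h, hp⟩⟩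
  have := count hD (I := Set P) (J := P) (fun S => pre (Ps.map fun g i j => g ∈ S ∧ R g i j) L)
    (fun f => .h :: (T f).flatMap test) (fun S S' => by
      simp only [pre, length_flatMap, map_map]
      congr 2; funext g; simp [length_blk _ (R g)])
    fun S S' e => Set.ext fun f => by rw [← key, ← key, e]
  simp only [Fintype.card_set, P, Fintype.card_fun, Fintype.card_bool, Fintype.card_fin,
    ZMod.card] at this
  generalize Fintype.card Q = m at *
  have h1 : m * 2 ^ (m ^ 2) + 1 ≤ 2 ^ (m ^ 2 + m) := by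
    have := Nat.lt_two_pow_self (n := m)
    have : 0 < 2 ^ (m ^ 2) := by positivity
    rw [pow_add]; nlinarith
  have h2 := (Nat.pow_le_pow_iff_right (by norm_num)).1 (this.trans h1)
  have h3 : (2 ^ h) ^ (2 * h) = (2 ^ (h ^ 2)) ^ 2 := by rw [← pow_mul, ← pow_mul]; congr 1; ring
  rw [h3] at h2
  by_contra hc
  have : m + 1 ≤ 2 ^ (h ^ 2) := by omega
  nlinarith

theorem δl_len (q : St s) (σ : Sym Gam) : (δl q σ).length ≤ 2 := by
  rcases q with _ | ⟨_ | _ | _ | _, i⟩ <;> rcases σ with _ | _ | (l | _ | l) <;>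
    simp only [δl] <;> (try split_ifs) <;> simp

theorem δl_write (q : St s) (g : Gam) (p : St s × Gam × Bool) (h : p ∈ δl q (.cell g)) :
    p.2.1 ∉ Set.range (wit s).inp ∧ (g ∉ Set.range (wit s).inp → p.2.1 = g) := by
  rcases q with _ | ⟨_ | _ | _ | _, i⟩ <;> rcases g with l | _ | l <;>
    simp only [δl] at h <;> (try split_ifs at h) <;> simp at h <;>
    (try rcases h with rfl | rfl) <;> simp [wit]

theorem main : ∃ (A Γ : Type) (_ : Fintype A) (_ : Fintype Γ),
    Fintype.card A = 7 ∧ Fintype.card Γ = 15 ∧ ∀ h : ℕ, 1 ≤ h →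
      ∃ (Q : Type) (_ : Fintype Q) (M : Aut Q A Γ), Fintype.card Q = 8 * h + 1 ∧
        (∀ q σ, (M.δ q σ).ncard ≤ 2) ∧
        (∀ q g, ∀ p ∈ M.δ q (.cell g), p.2.1 ∉ Set.range M.inp ∧
          (g ∉ Set.range M.inp → p.2.1 = g)) ∧
        ∀ (Q' Γ' : Type) [Fintype Q'] (D : Aut Q' A Γ'), D.Det →
          (∀ w, M.Accepts w ↔ D.Accepts w) → 2 ^ (h ^ 2) ≤ Fintype.card Q' := by
  refine ⟨Let, Gam, inferInstance, inferInstance, rfl, rfl, fun h hh => ?_⟩
  haveI : NeZero (2 * h) := ⟨by omega⟩
  refine ⟨St (2 * h), inferInstance, wit _, ?_, fun q σ => ?_, fun q g => δl_write q g,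
    fun Q' Γ' _ D hD e => lower hh hD e⟩
  · have : Fintype.card Mode = 4 := rfl
    simp [this]; ring
  · classical
    have : (wit (2 * h)).δ q σ = (δl q σ).toFinset := by ext; simp [wit]
    rw [this, Set.ncard_coe_finset]
    exact (toFinset_card_le _).trans (δl_len q σ)

end Pool.Agent.H38.LA
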