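import Pool.Agent.H38.LA.Gen

namespace Pool.Agent.H38.LA

open Relation

inductive Let | a | b | e | n | h | c | z
  deriving DecidableEq, Fintype

inductive Mode | F | L | A | B
  deriving DecidableEq, Fintype

abbrev Gam := Let ⊕ Option Let
abbrev St (s : ℕ) := Option (Mode × ZMod s)

abbrev mk (l : Let) : Gam := .inr (some l)
abbrev star : Gam := .inr none

variable {s : ℕ}

def ind (l l' : Let) : ZMod s := if l = l' then 1 else 0

def δl : St s → Sym Gam → List (St s × Gam × Bool)
  | none, .cell (.inl l) =>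
      (none, mk l, true) :: if l = .h then [(some (.F, 0), star, true)] else []
  | some (.F, i), .cell (.inr g) => [(some (.F, i), .inr g, true)]
  | some (.F, i), .cell (.inl l) => if l = .c then [(some (.L, i), mk l, false)] else
      if l = .z ∧ i ≠ 0 then [] else [(some (.F, i + ind l .a), mk l, true)]
  | some (.F, i), .right => [(some (.F, i), star, true)]
  | some (.L, i), .cell (.inr (some l)) => [(some (.L, i), mk l, false)]
  | some (.L, i), .cell (.inr none) => [(some (.A, i), star, true)]
  | some (.A, i), .cell (.inr (some l)) =>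
      (if l = .h then [] else [(some (.A, i + ind l .a), mk l, true)]) ++
        if l = .e ∧ i = 0 then [(some (.B, 0), mk l, true)] else []
  | some (.B, i), .cell (.inr (some l)) =>
      if l = .h then [(some (.F, i), mk l, true)] else [(some (.B, i + ind l .b), mk l, true)]
  | _, _ => []

def wit (s : ℕ) : Aut (St s) Let Gam where
  inp := Function.Embedding.inl
  δ q σ := {p | p ∈ δl q σ}
  init := none
  final := {q | ∃ i, q = some (.F, i)}

def cell (j p r : ℕ) (l : Let) : Gam := if r < j then (if r = p then star else mk l) else .inl l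

def tape (w : List Let) (j p : ℕ) : List Gam := w.mapIdx (cell j p)

@[simp] theorem length_tape (w : List Let) (j p : ℕ) : (tape w j p).length = w.length := by
  simp [tape]

theorem tape_get (w : List Let) (j p r : ℕ) : (tape w j p)[r]? = w[r]?.map (cell j p r) := by
  simp [tape]

theorem tape_zero (w : List Let) (p : ℕ) : tape w 0 p = w.map (wit s).inp := by
  apply List.ext_getElem?; intro r
  rw [tape_get]; simp only [List.getElem?_map]; congr

theorem tape_set {w : List Let} {j p p' : ℕ} {l : Let} (h : w[j]? = some l)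
    (hp : ∀ r < j, r = p ↔ r = p') : (tape w j p).set j (if j = p' then star else mk l) =
      tape w (j + 1) p' := by
  apply List.ext_getElem?; intro r
  have hj : j < w.length := (List.getElem?_eq_some_iff.1 h).1
  rw [List.getElem?_set]
  split_ifs with h1 h2 h3
  · subst h1; subst h3; simp [tape_get, h, cell]
  · subst h1; simp [tape_get, h, cell, h3]
  · simp at h2; omega
  · rw [tape_get, tape_get]
    congr 1; funext l
    unfold cell
    by_cases h4 : r < j
    · simp [h4, hp r h4, h4.le, Nat.lt_succ_iff]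
    · rw [if_neg h4, if_neg (by omega)]

theorem scan_tape {w : List Let} {j p r : ℕ} {l : Let} (h : w[r]? = some l) :
    scan (tape w j p) (r + 1) = some (.cell (cell j p r l)) := by
  have hj : r < w.length := (List.getElem?_eq_some_iff.1 h).1
  rw [scan, if_neg (by omega), if_neg (by simp; omega)]
  simp [tape_get, h]

def seg (w : List Let) (a b : ℕ) : List Let := (w.take b).drop a

theorem seg_self (w : List Let) (a : ℕ) : seg w a a = [] := by simp [seg]

theorem seg_succ {w : List Let} {a b : ℕ} {l : Let} (h : w[b]? = some l) (hab : a ≤ b) :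
    seg w a (b + 1) = seg w a b ++ [l] := by
  have hj : b < w.length := (List.getElem?_eq_some_iff.1 h).1
  rw [seg, List.take_add_one, h, List.drop_append_of_le_length (by simp; omega)]; rfl

theorem drop_eq {w : List Let} {a b : ℕ} {l : Let} (h : w[b]? = some l) (hab : a ≤ b) :
    w.drop a = seg w a b ++ l :: w.drop (b + 1) := by
  have hj : b < w.length := (List.getElem?_eq_some_iff.1 h).1
  conv_lhs => rw [← List.take_append_drop (b + 1) w]
  rw [List.drop_append_of_le_length (by simp; omega)]
  change seg w a (b + 1) ++ _ = _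
  rw [seg_succ h hab]; simp

def cnt (l : Let) (x : List Let) : ZMod s := (x.count l : ZMod s)

@[simp] theorem cnt_nil (l : Let) : (cnt l [] : ZMod s) = 0 := by simp [cnt]
@[simp] theorem cnt_append (l : Let) (x y : List Let) :
    (cnt l (x ++ y) : ZMod s) = cnt l x + cnt l y := by simp [cnt]
@[simp] theorem cnt_cons (l l' : Let) (x : List Let) :
    (cnt l (l' :: x) : ZMod s) = ind l' l + cnt l x := by
  simp only [cnt, ind, List.count_cons, beq_iff_eq]; split_ifs <;> simp [add_comm]

def Rel (y : List Let) (i i' : ZMod s) : Prop :=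
  ∃ x1 x2 v, y = x1 ++ .e :: (x2 ++ .h :: v) ∧ .h ∉ x1 ∧ .h ∉ x2 ∧ i + cnt .a x1 = 0 ∧
    i' = cnt .b x2

def Stp (R : ZMod s → ZMod s → Prop) (l : Let) (i i' : ZMod s) : Prop :=
  if l = .c then R i i' else (l = .z → i = 0) ∧ i' = i + ind l .a

def Run (R : ZMod s → ZMod s → Prop) : ZMod s → List Let → ZMod s → Prop
  | i, [], k => k = i
  | i, l :: v, k => ∃ i', Stp R l i i' ∧ Run R i' v k

theorem run_append {R : ZMod s → ZMod s → Prop} {i k : ZMod s} {x y : List Let} :
    Run R i (x ++ y) k ↔ ∃ m, Run R i x m ∧ Run R m y k := by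
  induction x generalizing i with
  | nil => simp [Run]
  | cons l x ih =>
    simp only [List.cons_append, Run, ih]
    exact ⟨fun ⟨a, h1, b, h2, h3⟩ => ⟨b, ⟨a, h1, h2⟩, h3⟩, fun ⟨b, ⟨a, h1, h2⟩, h3⟩ =>
      ⟨a, h1, b, h2, h3⟩⟩

theorem run_snoc {R : ZMod s → ZMod s → Prop} {i m k : ZMod s} {x : List Let} {l : Let}
    (h : Run R i x m) (h' : Stp R l m k) : Run R i (x ++ [l]) k :=
  run_append.2 ⟨m, h, k, h', rfl⟩

def Pend (w : List Let) (p j : ℕ) (i : ZMod s) : Prop :=
  ∃ j0, j = j0 + 1 ∧ p < j0 ∧ w[j0]? = some .c ∧ Run (Rel (w.drop (p + 1))) 0 (seg w (p + 1) j0) i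

def Inv (w : List Let) (p j pos : ℕ) : Mode → ZMod s → Prop
  | .F, i => pos ≤ j + 1 ∧ Run (Rel (w.drop (p + 1))) 0 (seg w (p + 1) j) i
  | .L, i => pos ≤ j ∧ Pend w p j i
  | .A, i => ∃ i0 r, Pend w p j i0 ∧ pos = r + 1 ∧ p + 1 ≤ r ∧ r ≤ j ∧ .h ∉ seg w (p + 1) r ∧
      i = i0 + cnt .a (seg w (p + 1) r)
  | .B, i => ∃ i0 r r', Pend w p j i0 ∧ pos = r' + 1 ∧ p + 1 ≤ r ∧ r + 1 ≤ r' ∧ r' ≤ j ∧
      w[r]? = some .e ∧ .h ∉ seg w (p + 1) r ∧ i0 + cnt .a (seg w (p + 1) r) = (0 : ZMod s) ∧
      .h ∉ seg w (r + 1) r' ∧ i = cnt .b (seg w (r + 1) r')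

def Inv' (w : List Let) (x : Conf (St s) Gam) : Prop :=
  (x.q = none ∧ x.pos = x.seen + 1 ∧ x.tape = tape w x.seen w.length) ∨
  ∃ p m i, x.q = some (m, i) ∧ w[p]? = some .h ∧ p < x.seen ∧ x.tape = tape w x.seen p ∧
    Inv w p x.seen x.pos m i

theorem inv_step {w : List Let} {x y : Conf (St s) Gam} (h : Inv' w x) (hs : (wit s).Step x y) :
    Inv' w y := by
  obtain ⟨q, pos, t, j⟩ := x
  obtain ⟨q', pos', t', j'⟩ := y
  obtain ⟨σ, γ, d, h1, h2, h3, h4, h5, h6⟩ := hs
  simp only [wit, Set.mem_ofPred_eq, Inv'] at h h1 h2 h3 h4 h5 h6 ⊢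
  have hlen : t.length = w.length := by
    rcases h with ⟨-, -, rfl⟩ | ⟨_, _, _, -, -, -, rfl, -⟩ <;> simp
  rcases Nat.eq_zero_or_pos pos with rfl | hpos
  · obtain rfl : σ = .left := by simpa [scan] using h1.symm
    rcases q with _ | ⟨_ | _ | _ | _, i⟩ <;> simp [δl] at h2
  obtain ⟨r, rfl⟩ : ∃ r, pos = r + 1 := ⟨pos - 1, by omega⟩
  by_cases hr : r = w.length
  · obtain rfl : σ = .right := by simpa [scan, hlen, hr] using h1.symm
    rcases q with _ | ⟨_ | _ | _ | _, i⟩ <;> simp [δl] at h2
    obtain ⟨rfl, rfl, rfl⟩ := h2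
    rcases h with ⟨h, -⟩ | ⟨p, m, i', h7, h8, h9, rfl, h10⟩
    · simp at h
    obtain ⟨rfl, rfl⟩ : Mode.F = m ∧ i = i' := by simpa using h7
    have h11 := h10.1
    have e1 : ∀ a ≥ w.length, tape w a p = tape w w.length p := fun a ha => by
      apply List.ext_getElem (by simp)
      intro n h1 h2
      simp only [length_tape] at h1
      simp [tape, cell, h1, h1.trans_le ha]
    have e2 : ∀ a ≥ w.length, seg w (p + 1) a = seg w (p + 1) w.length := fun a ha => by
      simp [seg, List.take_of_length_le ha]
    refine Or.inr ⟨p, .F, i, rfl, h8, by omega, ?_, by simp at h4; omega, ?_⟩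
    · rw [h5, e1 j' (by omega), e1 j (by omega)]
      split_ifs
      · exact List.set_eq_of_length_le (by simp; omega)
      · rfl
    · rw [e2 j' (by omega), ← e2 j (by omega)]; exact h10.2
  obtain ⟨l, hl⟩ : ∃ l, w[r]? = some l := by
    rw [scan, if_neg (by omega), if_neg (by omega)] at h1
    have : r < t.length := by
      by_contra hc
      simp [List.getElem?_eq_none (not_lt.1 hc)] at h1
    exact ⟨w[r]'(by omega), by simp⟩
  have hrl : r < w.length := (List.getElem?_eq_some_iff.1 hl).1
  rcases h with ⟨rfl, h7, rfl⟩ | ⟨p, m, i, rfl, h8, h9, rfl, h10⟩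
  · obtain rfl : r = j := by omega
    rw [scan_tape hl, cell, if_neg (by omega)] at h1
    obtain rfl := Option.some.inj h1
    simp only [δl, List.mem_cons, Prod.mk.injEq] at h2
    rw [if_pos (by omega), Nat.add_sub_cancel] at h5
    obtain rfl : j' = r + 1 := by omega
    rcases h2 with ⟨rfl, rfl, rfl⟩ | h2
    · refine Or.inl ⟨rfl, h4, ?_⟩
      rw [h5, ← tape_set hl (p := w.length) fun _ _ => Iff.rfl, if_neg hr]
    · split_ifs at h2 with h8
      · subst h8
        simp only [List.mem_singleton, Prod.mk.injEq] at h2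
        obtain ⟨rfl, rfl, rfl⟩ := h2
        refine Or.inr ⟨r, .F, 0, rfl, hl, by omega, ?_, by simp at h4; omega, ?_⟩
        · rw [h5, ← tape_set hl (p := w.length) fun _ _ => by omega, if_pos rfl]
        · rw [seg_self]; rfl
      · simp at h2
  rw [scan_tape hl] at h1
  obtain rfl := Option.some.inj h1
  by_cases hj : r < j
  · rw [if_neg (by omega)] at h5
    obtain rfl : j' = j := by omega
    subst h5
    rw [cell, if_pos hj] at h2
    cases m
    · have : q' = some (.F, i) ∧ d = true := by
        split_ifs at h2 <;> simp [δl] at h2 <;> simp [h2]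
      obtain ⟨rfl, rfl⟩ := this
      exact Or.inr ⟨p, .F, i, rfl, h8, h9, rfl, by simp at h4; omega, h10.2⟩
    · split_ifs at h2 with h11
      · simp only [δl, List.mem_singleton, Prod.mk.injEq] at h2
        obtain ⟨rfl, rfl, rfl⟩ := h2
        subst h11
        exact Or.inr ⟨r, .A, i, rfl, h8, h9, rfl, i, r + 1, h10.2, h4, le_rfl, by omega,
          by simp [seg_self], by simp [seg_self]⟩
      · simp only [δl, List.mem_singleton, Prod.mk.injEq] at h2
        obtain ⟨rfl, rfl, rfl⟩ := h2
        exact Or.inr ⟨p, .L, i, rfl, h8, h9, rfl, by simp at h4; omega, h10.2⟩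
    · obtain ⟨i0, r0, h11, h12, h13, h14, h15, h16⟩ := h10
      obtain rfl : r = r0 := by omega
      rw [if_neg (by omega)] at h2
      simp only [δl, List.mem_append] at h2
      rcases h2 with h2 | h2 <;> split_ifs at h2 with h17 <;>
        simp only [List.mem_singleton, Prod.mk.injEq, List.not_mem_nil] at h2 <;>
        obtain ⟨rfl, rfl, rfl⟩ := h2
      · refine Or.inr ⟨p, .A, _, rfl, h8, h9, rfl, i0, r + 1, h11, h4, by omega, by omega, ?_, ?_⟩
        · rw [seg_succ hl h13]; simp [h15, Ne.symm h17]
        · rw [seg_succ hl h13, h16]; simp [add_assoc]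
      · obtain ⟨rfl, h17⟩ := h17
        exact Or.inr ⟨p, .B, _, rfl, h8, h9, rfl, i0, r, r + 1, h11, h4, h13, le_rfl, by omega, hl,
          h15, h16 ▸ h17, by simp [seg_self], by simp [seg_self]⟩
    · obtain ⟨i0, r0, r1, h11, h12, h13, h14, h15, h16, h17, h18, h19, h20⟩ := h10
      obtain rfl : r = r1 := by omega
      rw [if_neg (by omega)] at h2
      simp only [δl] at h2
      split_ifs at h2 with h21 <;>
        simp only [List.mem_singleton, Prod.mk.injEq] at h2 <;> obtain ⟨rfl, rfl, rfl⟩ := h2
      · subst h21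
        obtain ⟨j0, rfl, h22, h23, h24⟩ := h11
        refine Or.inr ⟨p, .F, _, rfl, h8, h9, rfl, by simp at h4; omega, ?_⟩
        rw [seg_succ h23 (by omega)]
        refine run_snoc h24 ?_
        rw [Stp, if_pos rfl]
        exact ⟨_, _, _, by rw [drop_eq h16 h13, drop_eq hl h14], h17, h19, h18, h20⟩
      · refine Or.inr ⟨p, .B, _, rfl, h8, h9, rfl, i0, r0, r + 1, h11, h4, h13, by omega, by omega,
          h16, h17, h18, ?_, ?_⟩
        · rw [seg_succ hl h14]; simp [h19, Ne.symm h21]
        · rw [seg_succ hl h14, h20]; simp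
  · rw [cell, if_neg hj] at h2
    rcases m with _ | _ | _ | _ <;> simp only [δl, List.not_mem_nil] at h2
    obtain rfl : r = j := by have := h10.1; omega
    rw [if_pos (by omega), Nat.add_sub_cancel] at h5
    obtain rfl : j' = r + 1 := by omega
    have e : (tape w r p).set r (mk l) = tape w (r + 1) p := by
      rw [← tape_set hl (p := p) fun _ _ => Iff.rfl, if_neg (by omega)]
    split_ifs at h2 with h11 h12 <;>
      simp only [List.mem_singleton, Prod.mk.injEq, List.not_mem_nil] at h2 <;>
      obtain ⟨rfl, rfl, rfl⟩ := h2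
    · subst h11
      exact Or.inr ⟨p, .L, _, rfl, h8, by omega, h5.trans e, by simp at h4; omega,
        r, rfl, h9, hl, h10.2⟩
    · refine Or.inr ⟨p, .F, _, rfl, h8, by omega, h5.trans e, by simp at h4; omega, ?_⟩
      rw [seg_succ hl (by omega)]
      refine run_snoc h10.2 ?_
      rw [Stp, if_neg h11]
      exact ⟨fun h => by_contra fun h' => h12 ⟨h, h'⟩, rfl⟩

theorem sound {w : List Let} (h : (wit s).Accepts w) :
    ∃ u y, w = u ++ .h :: y ∧ ∃ i : ZMod s, Run (Rel y) 0 y i := by
  obtain ⟨y, h1, h2, i, h3⟩ := h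
  have key : ∀ c, ReflTransGen (wit s).Step ⟨none, 1, w.map (wit s).inp, 0⟩ c → Inv' w c := by
    intro c hc
    induction hc with
    | refl => exact Or.inl ⟨rfl, rfl, (tape_zero w _).symm⟩
    | tail _ hs ih => exact inv_step ih hs
  rcases key y h1 with ⟨h, -⟩ | ⟨p, m, i', h4, h5, h6, -, h7⟩
  · simp [h] at h3
  obtain ⟨rfl, rfl⟩ : Mode.F = m ∧ i = i' := by simpa [h3] using h4
  refine ⟨w.take p, w.drop (p + 1), by simpa [seg] using drop_eq h5 (Nat.zero_le p), i, ?_⟩
  have := h7.2
  rwa [seg, List.take_of_length_le (by have := h7.1; omega)] at this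

section complete

variable {w : List Let}

abbrev Rch (s : ℕ) := ReflTransGen (wit s).Step

theorem stepM {q q' : St s} {r j p : ℕ} {l : Let} {γ : Gam} {d : Bool} (h : w[r]? = some l)
    (hj : r < j) (h' : (q', γ, d) ∈ δl q (.cell (if r = p then star else mk l))) :
    Rch s ⟨q, r + 1, tape w j p, j⟩ ⟨q', if d then r + 2 else r, tape w j p, j⟩ :=
  .single ⟨_, γ, d, scan_tape h, by rw [cell, if_pos hj]; exact h', by simp, by simp,
    (if_neg (by dsimp only; omega)).symm, by dsimp only; omega⟩

theorem stepU {q q' : St s} {j p p' : ℕ} {l : Let} {d : Bool} (h : w[j]? = some l)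
    (hp : ∀ r < j, r = p ↔ r = p')
    (h' : (q', (if j = p' then star else mk l), d) ∈ δl q (.cell (.inl l))) :
    Rch s ⟨q, j + 1, tape w j p, j⟩ ⟨q', if d then j + 2 else j, tape w (j + 1) p', j + 1⟩ :=
  .single ⟨_, _, d, scan_tape h, by rw [cell, if_neg (lt_irrefl _)]; exact h', by simp, by simp,
    by dsimp only; rw [if_pos (by omega), Nat.add_sub_cancel, tape_set h hp], by simp⟩

theorem ex_get {i : ℕ} (h : i < w.length) : ∃ a, w[i]? = some a := ⟨w[i], by simp [h]⟩

theorem runS {j : ℕ} (h : j ≤ w.length) :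
    Rch s ⟨none, 1, tape w 0 w.length, 0⟩ ⟨none, j + 1, tape w j w.length, j⟩ := by
  induction j with
  | zero => exact .refl
  | succ j ih =>
    obtain ⟨a, ha⟩ := ex_get (w := w) (i := j) (by omega)
    exact (ih (by omega)).trans (stepU (d := true) ha (fun _ _ => Iff.rfl)
      (by rw [if_neg (by omega)]; simp [δl]))

theorem runR {i : ZMod s} {r j p : ℕ} (d : ℕ) (h : r + d ≤ j) (hj : j ≤ w.length) :
    Rch s ⟨some (.F, i), r + 1, tape w j p, j⟩ ⟨some (.F, i), r + d + 1, tape w j p, j⟩ := by
  induction d with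
  | zero => exact .refl
  | succ d ih =>
    obtain ⟨a, ha⟩ := ex_get (w := w) (i := r + d) (by omega)
    exact (ih (by omega)).trans (stepM (d := true) (γ := if r + d = p then star else mk a) ha
      (by omega) (by split_ifs <;> simp [δl]))

theorem runL {i : ZMod s} {j p : ℕ} (d : ℕ) (h : p + d < j) (hj : j ≤ w.length) :
    Rch s ⟨some (.L, i), p + d + 1, tape w j p, j⟩ ⟨some (.L, i), p + 1, tape w j p, j⟩ := by
  induction d with
  | zero => exact .refl
  | succ d ih =>
    obtain ⟨a, ha⟩ := ex_get (w := w) (i := p + (d + 1)) (by omega)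
    exact (stepM (d := false) (γ := mk a) ha (by omega)
      (by rw [if_neg (by omega)]; simp [δl])).trans (ih (by omega))

theorem get_mid (pre post : List Let) (l : Let) : (pre ++ l :: post)[pre.length]? = some l := by
  simp

theorem runAB {m : Mode} {l0 : Let} (hm : (m = .A ∧ l0 = .a) ∨ (m = .B ∧ l0 = .b)) {j p : ℕ}
    (x : List Let) (hx : .h ∉ x) : ∀ (pre post : List Let) (i : ZMod s), w = pre ++ (x ++ post) →
    p < pre.length → pre.length + x.length ≤ j →
    Rch s ⟨some (m, i), pre.length + 1, tape w j p, j⟩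
      ⟨some (m, i + cnt l0 x), pre.length + x.length + 1, tape w j p, j⟩ := by
  induction x with
  | nil => intro pre post i _ _ _; simpa using .refl
  | cons l x ih =>
    intro pre post i e h1 h2
    simp only [List.mem_cons, not_or, List.length_cons] at hx h2
    refine (stepM (d := true) (γ := mk l) (q' := some (m, i + ind l l0))
      (e ▸ get_mid pre (x ++ post) l) (by omega) ?_).trans ?_
    · rw [if_neg (by omega)]
      rcases hm with ⟨rfl, rfl⟩ | ⟨rfl, rfl⟩ <;> simp [δl, Ne.symm hx.1]
    · have := ih hx.2 (pre ++ [l]) post (i + ind l l0) (by simp [e]) (by simp; omega)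
        (by simp; omega)
      simpa [add_assoc, add_comm 1] using this

theorem runF {u x : List Let} {R : ZMod s → ZMod s → Prop}
    (hR : ∀ i i', R i i' → ∃ x1 x2, x = x1 ++ .e :: x2 ∧ i + cnt .a x1 = 0 ∧ i' = cnt .b x2)
    (hx : .h ∉ x) (v : List Let) : ∀ (pre : List Let) (i k : ZMod s), w = pre ++ v →
    u.length < pre.length → (.c ∈ v → ∃ y, pre = u ++ .h :: (x ++ .h :: y)) → Run R i v k →
    Rch s ⟨some (.F, i), pre.length + 1, tape w pre.length u.length, pre.length⟩
      ⟨some (.F, k), w.length + 1, tape w w.length u.length, w.length⟩ := by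
  induction v with
  | nil =>
    rintro pre i k rfl _ _ rfl
    simpa using .refl
  | cons l v ih =>
    rintro pre i k e h1 h2 ⟨i', h3, h4⟩
    have hl : w[pre.length]? = some l := e ▸ get_mid pre v l
    have hw : pre.length < w.length := by simp [e]
    have ih' := ih (pre ++ [l]) i' k (by simp [e]) (by simp; omega) (fun h => by
      obtain ⟨y, rfl⟩ := h2 (List.mem_cons_of_mem _ h)
      exact ⟨y ++ [l], by simp⟩) h4
    simp only [List.length_append, List.length_singleton] at ih'
    refine ReflTransGen.trans ?_ ih'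
    unfold Stp at h3
    split_ifs at h3 with hc
    · subst hc
      obtain ⟨y, hy⟩ := h2 List.mem_cons_self
      obtain ⟨x1, x2, rfl, h5, rfl⟩ := hR _ _ h3
      simp only [List.mem_append, List.mem_cons, not_or] at hx
      have hlen : pre.length = u.length + 1 + x1.length + 1 + x2.length + 1 + y.length := by
        simp [hy]; omega
      refine (stepU (d := false) (q' := some (.L, i)) (p' := u.length) hl (fun _ _ => Iff.rfl)
        (by rw [if_neg (by omega)]; simp [δl])).trans ?_
      have r1 := runL (w := w) (i := i) (j := pre.length + 1) (p := u.length)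
        (pre.length - u.length - 1) (by omega) (by omega)
      rw [show u.length + (pre.length - u.length - 1) + 1 = pre.length by omega] at r1
      refine r1.trans ?_
      refine (stepM (d := true) (γ := star) (q' := some (.A, i)) (l := .h) (r := u.length)
        (by simp [e, hy]) (by omega) (by simp [δl])).trans ?_
      have r2 := runAB (w := w) (Or.inl ⟨rfl, rfl⟩) (j := pre.length + 1) (p := u.length) x1 hx.1
        (u ++ [.h]) (.e :: (x2 ++ .h :: (y ++ .c :: v))) i (by simp [e, hy]) (by simp)
        (by simp; omega)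
      simp only [List.length_append, List.length_singleton, h5] at r2
      refine r2.trans ?_
      refine (stepM (d := true) (γ := mk .e) (q' := some (.B, 0)) (l := .e)
        (r := u.length + 1 + x1.length) ?_ (by omega)
        (by rw [if_neg (by omega)]; simp [δl])).trans ?_
      · have := get_mid (u ++ .h :: x1) (x2 ++ .h :: (y ++ .c :: v)) .e
        simpa [e, hy, add_assoc, add_comm 1] using this
      have r3 := runAB (w := w) (Or.inr ⟨rfl, rfl⟩) (j := pre.length + 1) (p := u.length) x2
        hx.2.2 (u ++ .h :: (x1 ++ [.e])) (.h :: (y ++ .c :: v)) (0 : ZMod s) (by simp [e, hy])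
        (by simp) (by simp; omega)
      simp only [List.length_append, List.length_cons, List.length_nil, zero_add] at r3
      rw [show u.length + (x1.length + 1 + 1) = u.length + 1 + x1.length + 1 by omega] at r3
      refine r3.trans ?_
      refine (stepM (d := true) (γ := mk .h) (q' := some (.F, cnt .b x2)) (l := .h)
        (r := u.length + 1 + x1.length + 1 + x2.length) ?_ (by omega)
        (by rw [if_neg (by omega)]; simp [δl])).trans ?_
      · have := get_mid (u ++ .h :: (x1 ++ .e :: x2)) (y ++ .c :: v) .h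
        rw [show u.length + 1 + x1.length + 1 + x2.length =
          (u ++ .h :: (x1 ++ .e :: x2)).length by simp; omega, ← this]
        simp [e, hy]
      have r4 := runR (w := w) (i := (cnt .b x2 : ZMod s)) (p := u.length) (j := pre.length + 1)
        (r := u.length + 1 + x1.length + 1 + x2.length + 1) (y.length + 1) (by omega) (by omega)
      rw [show u.length + 1 + x1.length + 1 + x2.length + 1 + (y.length + 1) = pre.length + 1 by
        omega] at r4
      exact r4
    · obtain ⟨h5, rfl⟩ := h3
      refine stepU (d := true) (p' := u.length) hl (fun _ _ => Iff.rfl) ?_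
      rw [if_neg (by omega)]
      simp only [δl, if_neg hc]
      rw [if_neg (fun h => h.2 (h5 h.1))]
      simp

theorem complete {u x v : List Let} {R : ZMod s → ZMod s → Prop}
    (hR : ∀ i i', R i i' → ∃ x1 x2, x = x1 ++ .e :: x2 ∧ i + cnt .a x1 = 0 ∧ i' = cnt .b x2)
    (hx : .h ∉ x) (hx' : .c ∉ x) {k : ZMod s} (h : Run R 0 (x ++ .h :: v) k) :
    (wit s).Accepts (u ++ .h :: (x ++ .h :: v)) := by
  set w := u ++ .h :: (x ++ .h :: v) with hw
  obtain ⟨m, h1, h2⟩ : ∃ m, Run R 0 (x ++ [.h]) m ∧ Run R m v k := by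
    rw [← run_append]; simpa using h
  have r0 := (runS (s := s) (w := w) (j := u.length) (by simp [hw])).trans
    (stepU (d := true) (q' := some (.F, 0)) (p' := u.length) (get_mid _ _ _)
      (fun r hr => by simp [hw]; omega) (by simp [δl]))
  have aux : ∀ (x' pre post : List Let) (i m : ZMod s), w = pre ++ (x' ++ post) →
      u.length < pre.length → .c ∉ x' → Run R i x' m →
      Rch s ⟨some (.F, i), pre.length + 1, tape w pre.length u.length, pre.length⟩
        ⟨some (.F, m), (pre ++ x').length + 1, tape w (pre ++ x').length u.length,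
          (pre ++ x').length⟩ := by
    intro x'
    induction x' with
    | nil => rintro pre post i m _ _ _ rfl; simpa using .refl
    | cons l x' ih =>
      rintro pre post i m e h1 h2 ⟨i', h3, h4⟩
      simp only [List.mem_cons, not_or] at h2
      have := ih (pre ++ [l]) post i' m (by simp [e]) (by simp; omega) h2.2 h4
      rw [Stp, if_neg (Ne.symm h2.1)] at h3
      obtain ⟨h5, rfl⟩ := h3
      refine (stepU (d := true) (p' := u.length) (q' := some (.F, i + ind l .a))
        (e ▸ get_mid pre _ l) (fun _ _ => Iff.rfl) ?_).trans (by simpa using this)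
      rw [if_neg (by omega)]
      simp only [δl, if_neg (Ne.symm h2.1)]
      rw [if_neg (fun h => h.2 (h5 h.1))]
      simp
  have r1 := aux (x ++ [.h]) (u ++ [.h]) v 0 m (by simp [hw]) (by simp) (by simp [hx']) h1
  have r2 := runF (w := w) (u := u) hR hx v (u ++ [.h] ++ (x ++ [.h])) m k (by simp [hw])
    (by simp) (fun _ => ⟨[], by simp⟩) h2
  have r3 : (wit s).Step ⟨some (.F, k), w.length + 1, tape w w.length u.length, w.length⟩
      ⟨some (.F, k), w.length + 2, tape w w.length u.length, w.length + 1⟩ :=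
    ⟨.right, star, true, by simp [scan], by simp [wit, δl], by simp, by simp,
      by dsimp only; rw [if_pos (by omega), List.set_eq_of_length_le (by simp)], by simp⟩
  refine ⟨_, ((ReflTransGen.trans ?_ r1).trans r2).tail r3, rfl, k, rfl⟩
  rw [← tape_zero w w.length]
  simp only [List.length_append, List.length_singleton]
  exact r0

end complete

end Pool.Agent.H38.LA
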